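import Pool.Agent.U853.DM.Terms

set_option autoImplicit false

/-!
# Q1: the sum `∑ (3n²+n) s_n / 16^n`, `n < p`, modulo `p⁶`

The proof uses the closed form
`∑_{n<m} (3n²+n) 16^{m-1-n} s_n = (m/2) ∑_{j+k=m} j k C(m,k)² C(2k,k) C(2j,j)`.
-/

namespace Pool.Agent.Results.MP_4af00a_nt.SumModP6

open Finset

/-- `s_n = ∑_{k=0}^{n} C(n,k)^2 C(2k,k) C(2(n-k),n-k)`. -/
def s (n : ℕ) : ℕ :=
  ∑ k ∈ range (n + 1), (n.choose k) ^ 2 * (2 * k).choose k * (2 * (n - k)).choose (n - k)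

/-- the Fermat quotient `q_p(2) = (2^{p-1} - 1)/p` -/
def q (p : ℕ) : ℚ := ((2 : ℚ) ^ (p - 1) - 1) / p

/-- `a ≡ b (mod p^k)`: the difference is `p^k c` for a rational `c` with denominator prime to `p` -/
def Cong (p k : ℕ) (a b : ℚ) : Prop := ∃ c : ℚ, ¬ p ∣ c.den ∧ a - b = (p : ℚ) ^ k * c

open Pool.Agent.U853.DM Pool.Agent.R439.PL Pool.Agent.R499.Domb in
/-- **Q1 is true**: for every prime `p > 3`,
`∑_{n<p} (3n²+n) s_n / 16^n ≡ -4 p⁴ q_p(2) + 6 p⁵ q_p(2)² (mod p⁶)`. -/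
theorem result (p : ℕ) (hp : p.Prime) (h3 : 3 < p) :
    Cong p 6 (∑ n ∈ range p, (3 * (n : ℚ) ^ 2 + n) / 16 ^ n * (s n : ℚ))
      (-4 * (p : ℚ) ^ 4 * q p + 6 * (p : ℚ) ^ 5 * q p ^ 2) := by
  have hfact : Fact p.Prime := ⟨hp⟩
  have hodd : p % 2 = 1 := hp.eq_two_or_odd.resolve_left (by omega)
  obtain ⟨m, hm⟩ : ∃ m, p = 2 * m + 1 := ⟨p / 2, by omega⟩
  have hW := W_eq (p := p) h3 hm
  have hV := V_terms (p := p) hm
  have hs : ∀ n, (s n : ℚ) = Pool.Agent.R499.Domb.s n := by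
    intro n
    unfold s Pool.Agent.R499.Domb.s
    rw [← Finset.Nat.sum_antidiagonal_swap, Finset.Nat.sum_antidiagonal_eq_sum_range_succ_mk]
    push_cast
    apply sum_congr rfl
    intro k hk
    rw [mem_range] at hk
    simp only [Prod.swap_prod_mk]
    unfold Pool.Agent.R499.Domb.t Pool.Agent.R499.Domb.c
    rw [show k + (n - k) = n by omega]
    rfl
  have hq : q p = Pool.Agent.U853.DM.q p := rfl
  have h16 : (16 : ℚ) ^ (p - 1) = (1 + p * q p) ^ 4 := by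
    rw [hq, pq]
    have : (1 : ℚ) + (2 ^ (p - 1) - 1) = 2 ^ (p - 1) := by ring
    rw [this, ← pow_mul, mul_comm, pow_mul]
    norm_num
  have hsum : ∑ n ∈ range p, (3 * (n : ℚ) ^ 2 + n) / 16 ^ n * (s n : ℚ) = V p / 16 ^ (p - 1) := by
    unfold V
    rw [sum_div]
    refine sum_congr rfl fun n hn => ?_
    have hn' := mem_range.1 hn
    have e : (16 : ℚ) ^ (p - 1) = 16 ^ (p - 1 - n) * 16 ^ n := by
      rw [← pow_add]; congr 1; omega
    rw [e, hs]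
    field_simp
  have hu : U p ((16 : ℚ) ^ (p - 1)) := by
    have h := (Pool.Agent.T2H53.HB.U2 (p := p) h3).pow (4 * (p - 1))
    rw [pow_mul] at h
    norm_num at h
    exact h
  obtain ⟨y, hy, e⟩ := hW
  refine ⟨y * ((16 : ℚ) ^ (p - 1))⁻¹, ?_, ?_⟩
  · have := den_of_I (p := p) (k := 0) (x := y * ((16 : ℚ) ^ (p - 1))⁻¹) (I_zero_iff.2 (mul_mem hy hu.2.2))
    simpa using this
  · rw [hsum, hV]
    have h0 := hu.1
    have e' : ∑ i ∈ range m, xx p i = (p : ℚ) ^ 2 * y + (16 : ℚ) ^ (p - 1) * (-4 * q p + 6 * p * q p ^ 2) := by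
      rw [h16, hq]; linear_combination e
    rw [e']
    field_simp
    ring

end Pool.Agent.Results.MP_4af00a_nt.SumModP6
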